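import Pool.Agent.W2helper86.KQ.Low
import Pool.Agent.W953.RD.Multi
import Pool.Agent.W953.KC.Any

/-!
# The equivalence for small windows
-/

set_option autoImplicit false

namespace Pool.Agent.W2helper86.KQ

open Filter Finset Pool.Agent.H540R2 Pool.Agent.H540R2.Circuit Pool.Agent.W953.NW
  Pool.Agent.W953.KC Pool.Agent.W953.RD

/-- the same circuit with another output node -/
def reout {N : ℕ} (C : Circuit N) (a : Node N) (ha : ∀ j, a.wires j ≠ 0 → j < C.size) :
    Circuit N where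
  size := C.size
  gate := C.gate
  out := a
  gate_lt := C.gate_lt
  out_lt := ha

lemma reout_val {N : ℕ} (C : Circuit N) (a : Node N) (ha : ∀ j, a.wires j ≠ 0 → j < C.size)
    (x : Fin N → Bool) : ∀ i, (reout C a ha).val x i = C.val x i := by
  intro i
  induction i using Nat.strong_induction_on with
  | _ i ih =>
    rw [Circuit.val, Circuit.val]
    have : (fun j => if _h : j < i then (reout C a ha).val x j else false) =
        (fun j => if _h : j < i then C.val x j else false) := by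
      funext j
      by_cases h : j < i
      · simp only [h, dif_pos]
        exact ih j h
      · simp only [h, dif_neg, not_false_iff]
    rw [this]
    rfl

lemma reout_eval {N : ℕ} (C : Circuit N) (a : Node N) (ha : ∀ j, a.wires j ≠ 0 → j < C.size)
    (x : Fin N → Bool) : (reout C a ha).eval x = a.eval x (C.val x) := by
  have h : (reout C a ha).val x = C.val x := funext (reout_val C a ha x)
  show a.eval x ((reout C a ha).val x) = _
  rw [h]

/-- one circuit on a window -/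
theorem window_one {N : ℕ} (C : Circuit N) (k₀ t : ℕ) : ∃ C' : Circuit N, C'.nots ≤ t ∧
    C'.size ≤ isz N (min t (Nat.log 2 N + 1)) + 2 * C.size ∧
      ∀ x, k₀ ≤ wt x → wt x < k₀ + 2 ^ t → C'.eval x = C.eval x := by
  obtain ⟨C', h1, h2, h3⟩ := window_multi C k₀ (min t (Nat.log 2 N + 1))
  obtain ⟨a', h4, h5⟩ := h3 C.out C.out_lt
  refine ⟨reout C' a' h4, h1.trans (min_le_left _ _), h2, fun x hx1 hx2 => ?_⟩
  rw [reout_eval]
  have h6 := wt_le x
  have h7 : N < 2 ^ (Nat.log 2 N + 1) := Nat.lt_pow_succ_log_self (by norm_num) N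
  refine h5 x hx1 ?_
  by_cases ht : t ≤ Nat.log 2 N + 1
  · rw [min_eq_left ht]
    exact hx2
  · rw [min_eq_right (by omega)]
    omega

/-- the slices together -/
theorem mux_one {N s : ℕ} (C : ℕ → Circuit N) (hC : ∀ a, (C a).size ≤ s) :
    ∃ C' : Circuit N, C'.size ≤ msz N 1 (Nat.log 2 N + 1) s ∧
      ∀ x, C'.eval x = (C (wt x)).eval x := by
  obtain ⟨C', o', h1, h2, h3⟩ := mux_multi (n := N) (m := 1) (Nat.log 2 N + 1) s
    (Nat.lt_pow_succ_log_self (by norm_num) N) C hC (fun a _ => (C a).out)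
    (fun a _ => (C a).out_lt)
  refine ⟨reout C' (o' 0) (h2 0), h1, fun x => ?_⟩
  rw [reout_eval, h3 x 0]
  rfl

/-- change the circuits of a randomised circuit -/
def RandCircuit.map {N : ℕ} (R : RandCircuit N) (F : R.Ω → Circuit N) : RandCircuit N where
  Ω := R.Ω
  fin := R.fin
  w := R.w
  nonneg := R.nonneg
  sum_one := R.sum_one
  C := F

lemma prob_le_of_imp {N : ℕ} (R : RandCircuit N) (F : R.Ω → Circuit N) (P Q : Circuit N → Prop)
    (h : ∀ o, P (R.C o) → Q (F o)) : R.prob P ≤ (R.map F).prob Q := by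
  classical
  let := R.fin
  unfold RandCircuit.prob RandCircuit.map
  refine Finset.sum_le_sum_of_subset_of_nonneg ?_ (fun o _ _ => R.nonneg o)
  intro o ho
  rw [Finset.mem_filter] at ho ⊢
  exact ⟨Finset.mem_univ _, h o ho.2⟩

/-- the product distribution -/
noncomputable def prodR {N M : ℕ} (R : Fin M → RandCircuit N)
    (F : (∀ i, (R i).Ω) → Circuit N) : RandCircuit N := by
  classical
  exact
  { Ω := ∀ i, (R i).Ω
    fin := @Pi.instFintype (Fin M) (fun i => (R i).Ω) _ _ (fun i => (R i).fin)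
    w := fun o => ∏ i, (R i).w (o i)
    nonneg := fun o => Finset.prod_nonneg fun i _ => (R i).nonneg _
    sum_one := by
      let := fun i => (R i).fin
      have h := Finset.prod_univ_sum (t := fun i : Fin M => (univ : Finset (R i).Ω))
        (f := fun i o => (R i).w o)
      rw [Fintype.piFinset_univ] at h
      rw [← h]
      exact Finset.prod_eq_one fun i _ => (R i).sum_one
    C := F }

lemma prod_prob {N M : ℕ} (R : Fin M → RandCircuit N) (F : (∀ i, (R i).Ω) → Circuit N)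
    (a : Fin M) (P Q : Circuit N → Prop) (h : ∀ o, P ((R a).C (o a)) → Q (F o)) :
    (R a).prob P ≤ (prodR R F).prob Q := by
  classical
  let := fun i => (R i).fin
  have h1 : (R a).prob P = ∑ o : (∀ i, (R i).Ω), (∏ i, (R i).w (o i)) *
      (if P ((R a).C (o a)) then 1 else 0) := by
    have h2 : ∀ o : (∀ i, (R i).Ω), (∏ i, (R i).w (o i)) *
        (if P ((R a).C (o a)) then (1 : ℝ) else 0) =
        ∏ i, ((R i).w (o i) * (if i = a then (if P ((R a).C (o a)) then (1 : ℝ) else 0)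
          else 1)) := by
      intro o
      rw [Finset.prod_mul_distrib, Finset.prod_ite_eq' univ a]
      simp
    have h3 : ∀ o : (∀ i, (R i).Ω), ∏ i, ((R i).w (o i) *
        (if i = a then (if P ((R a).C (o a)) then (1 : ℝ) else 0) else 1)) =
        ∏ i, ((R i).w (o i) * (if P ((R i).C (o i)) ∨ i ≠ a then (1 : ℝ) else 0)) := by
      intro o
      refine Finset.prod_congr rfl fun i _ => ?_
      congr 1
      by_cases hi : i = a
      · subst hi
        simp
      · simp [hi]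
    simp only [h2, h3]
    have h := Finset.prod_univ_sum (t := fun i : Fin M => (univ : Finset (R i).Ω))
      (f := fun i o => (R i).w o * (if P ((R i).C o) ∨ i ≠ a then (1 : ℝ) else 0))
    rw [Fintype.piFinset_univ] at h
    rw [← h, Finset.prod_eq_single a]
    · unfold RandCircuit.prob
      rw [Finset.sum_filter]
      refine Finset.sum_congr rfl fun o _ => ?_
      by_cases hP : P ((R a).C o)
      · simp [hP]
      · simp [hP]
    · intro i _ hi
      have : ∀ o : (R i).Ω, (R i).w o * (if P ((R i).C o) ∨ i ≠ a then (1 : ℝ) else 0) =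
          (R i).w o := by
        intro o
        simp [hi]
      simp only [this]
      exact (R i).sum_one
    · intro ha
      exact absurd (Finset.mem_univ a) ha
  rw [h1]
  have h4 : (prodR R F).prob Q = ∑ o : (∀ i, (R i).Ω), (∏ i, (R i).w (o i)) *
      (if Q (F o) then 1 else 0) := by
    unfold RandCircuit.prob prodR
    rw [Finset.sum_filter]
    refine Finset.sum_congr rfl fun o _ => ?_
    by_cases hQ : Q (F o)
    · simp [hQ]
    · simp [hQ]
  rw [h4]
  refine Finset.sum_le_sum fun o _ => ?_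
  refine mul_le_mul_of_nonneg_left ?_ (Finset.prod_nonneg fun i _ => (R i).nonneg _)
  by_cases hP : P ((R a).C (o a))
  · rw [if_pos hP, if_pos (h o hP)]
  · rw [if_neg hP]
    split_ifs <;> norm_num

/-! ### sizes -/

lemma choose_two_add_one {n : ℕ} (hn : 2 ≤ n) : n.choose 2 + 1 ≤ n ^ 2 := choose_succ_le hn

lemma two_pow_log_choose {n : ℕ} (hn : 2 ≤ n) : 2 ^ (Nat.log 2 (n.choose 2) + 1) ≤ 2 * n ^ 2 := by
  have h1 := two_pow_log (n.choose 2)
  have h2 := choose_two_add_one hn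
  calc 2 ^ (Nat.log 2 (n.choose 2) + 1) = 2 * 2 ^ Nat.log 2 (n.choose 2) := by ring
    _ ≤ 2 * n ^ 2 := by omega

lemma tde_choose {n : ℕ} (hn : 2 ≤ n) : 2 ^ tde (n.choose 2) ≤ 2 ^ 18 * n ^ 24 := by
  refine (tde_pow _).trans ?_
  apply Nat.mul_le_mul_left
  calc (n.choose 2 + 1) ^ 12 ≤ (n ^ 2) ^ 12 := Nat.pow_le_pow_left (choose_two_add_one hn) 12
    _ = n ^ 24 := by rw [← pow_mul]

lemma isz_le {n : ℕ} (hn : 2 ≤ n) (t : ℕ) :
    isz (n.choose 2) (min t (Nat.log 2 (n.choose 2) + 1)) ≤ 2 ^ 21 * n ^ 28 := by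
  have h1 := choose_two_add_one hn
  have h2 : 2 ^ (min t (Nat.log 2 (n.choose 2) + 1)) ≤ 2 * n ^ 2 :=
    (Nat.pow_le_pow_right (by norm_num) (min_le_right _ _)).trans (two_pow_log_choose hn)
  have h3 := tde_choose hn
  unfold isz
  have hn1 : 1 ≤ n := by omega
  calc n.choose 2 * (2 ^ (min t (Nat.log 2 (n.choose 2) + 1)) * 2 ^ tde (n.choose 2)) +
      2 ^ (min t (Nat.log 2 (n.choose 2) + 1)) * 2 ^ tde (n.choose 2) +
      6 * 2 ^ (min t (Nat.log 2 (n.choose 2) + 1)) * (n.choose 2 + 1)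
      = (n.choose 2 + 1) * (2 ^ (min t (Nat.log 2 (n.choose 2) + 1)) *
        (2 ^ tde (n.choose 2) + 6)) := by ring
    _ ≤ n ^ 2 * (2 * n ^ 2 * (2 ^ 18 * n ^ 24 + 6 * n ^ 24)) := by
        have : 6 ≤ 6 * n ^ 24 := by
          have : 1 ≤ n ^ 24 := Nat.one_le_pow _ _ hn1
          omega
        gcongr
    _ = (2 * (2 ^ 18 + 6)) * n ^ 28 := by ring
    _ ≤ 2 ^ 21 * n ^ 28 := Nat.mul_le_mul_right _ (by norm_num)

lemma msz_le {n : ℕ} (hn : 2 ≤ n) (s : ℕ) :
    msz (n.choose 2) 1 (Nat.log 2 (n.choose 2) + 1) s ≤ 2 ^ 21 * n ^ 28 * (s + 1) := by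
  have h2 := two_pow_log_choose hn
  have h3 := tde_choose hn
  unfold msz
  have hn1 : 1 ≤ n := by omega
  have hn24 : 1 ≤ n ^ 24 := Nat.one_le_pow _ _ hn1
  calc 2 ^ (Nat.log 2 (n.choose 2) + 1) * s +
      2 ^ (Nat.log 2 (n.choose 2) + 1) * 2 ^ tde (n.choose 2) +
      6 * 2 ^ (Nat.log 2 (n.choose 2) + 1) * (1 + 1)
      = 2 ^ (Nat.log 2 (n.choose 2) + 1) * (s + 2 ^ tde (n.choose 2) + 12) := by ring
    _ ≤ 2 * n ^ 2 * (s * n ^ 24 + 2 ^ 18 * n ^ 24 + 12 * n ^ 24) := by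
        have e1 : s ≤ s * n ^ 24 := Nat.le_mul_of_pos_right _ hn24
        have e2 : 12 ≤ 12 * n ^ 24 := by omega
        gcongr
    _ = (2 * (s + 2 ^ 18 + 12)) * n ^ 26 := by ring
    _ ≤ (2 ^ 21 * (s + 1)) * n ^ 28 := by
        have e3 : 2 * (s + 2 ^ 18 + 12) ≤ 2 ^ 21 * (s + 1) := by omega
        have e4 : n ^ 26 ≤ n ^ 28 := Nat.pow_le_pow_right hn1 (by norm_num)
        exact Nat.mul_le_mul e3 e4
    _ = _ := by ring

/-- the new size bounds -/
lemma size_bound {n : ℕ} (hn : 2 ≤ n) (F : ℕ) (G : ℝ) (S A : ℕ)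
    (hS : (S : ℝ) ≤ F * (n : ℝ) ^ G) (hA : A ≤ 2 ^ 21 * n ^ 28 * (S + 1)) :
    (A : ℝ) ≤ ((2 ^ 21 * (F + 1) : ℕ) : ℝ) * (n : ℝ) ^ (28 + |G|) := by
  have hn1 : (1 : ℝ) ≤ n := by exact_mod_cast (by omega : 1 ≤ n)
  have hn0 : (0 : ℝ) < n := by linarith
  have h1 : (A : ℝ) ≤ 2 ^ 21 * (n : ℝ) ^ 28 * (S + 1) := by exact_mod_cast hA
  have h2 : (n : ℝ) ^ G ≤ (n : ℝ) ^ |G| := Real.rpow_le_rpow_of_exponent_le hn1 (le_abs_self G)
  have h3 : 1 ≤ (n : ℝ) ^ |G| := Real.one_le_rpow hn1 (abs_nonneg G)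
  have h4 : (S : ℝ) + 1 ≤ (F + 1) * (n : ℝ) ^ |G| := by
    have : (F : ℝ) * (n : ℝ) ^ G ≤ F * (n : ℝ) ^ |G| :=
      mul_le_mul_of_nonneg_left h2 (Nat.cast_nonneg _)
    linarith
  calc (A : ℝ) ≤ 2 ^ 21 * (n : ℝ) ^ 28 * (S + 1) := h1
    _ ≤ 2 ^ 21 * (n : ℝ) ^ 28 * ((F + 1) * (n : ℝ) ^ |G|) :=
        mul_le_mul_of_nonneg_left h4 (by positivity)
    _ = ((2 ^ 21 * (F + 1) : ℕ) : ℝ) * (n : ℝ) ^ (28 + |G|) := by
        rw [Real.rpow_add hn0]
        rw [show (28 : ℝ) = ((28 : ℕ) : ℝ) by norm_num, Real.rpow_natCast]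
        push_cast
        ring

lemma tendsto_g {g : ℕ → ℝ} (hg : Tendsto (fun k : ℕ => g k / k) atTop (nhds 0)) :
    Tendsto (fun k : ℕ => (28 + |g k|) / k) atTop (nhds 0) := by
  have h1 : Tendsto (fun k : ℕ => (28 : ℝ) / k) atTop (nhds 0) :=
    tendsto_const_div_atTop_nhds_zero_nat 28
  have h2 : Tendsto (fun k : ℕ => |g k / k|) atTop (nhds 0) := by
    have := hg.abs
    simpa using this
  have h3 := h1.add h2
  rw [add_zero] at h3
  refine h3.congr fun k => ?_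
  rw [abs_div, Nat.abs_cast, add_div]

theorem on_of_all {s : ℕ → ℕ} {t W : ℕ → ℕ → ℕ} (hW : ∀ k n, W k n ≤ 2 ^ t k n)
    (h : CliqueAll s) : CliqueOn s t W := by
  obtain ⟨f, g, hg, h⟩ := h
  refine ⟨fun k => 2 ^ 21 * (2 * f k + 1), fun k => 28 + |g k|, tendsto_g hg, ?_⟩
  intro k n hk hn m
  obtain ⟨R, hR1, hR2⟩ := h k n hk hn
  choose F hF1 hF2 hF3 using fun o => window_one (R.C o) m (t k n)
  refine ⟨R.map F, fun o => ⟨hF1 o, ?_⟩, fun x hx1 hx2 => ?_⟩
  · have h1 : ((2 * (R.C o).size : ℕ) : ℝ) ≤ ((2 * f k : ℕ) : ℝ) * (n : ℝ) ^ g k := by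
      push_cast
      have := hR1 o
      linarith
    refine size_bound hn (2 * f k) (g k) (2 * (R.C o).size) (F o).size h1 ?_
    refine (hF2 o).trans ?_
    have h2 := isz_le hn (t k n)
    have h3 : 1 ≤ 2 ^ 21 * n ^ 28 := Nat.mul_pos (by norm_num) (Nat.one_le_pow _ _ (by omega))
    nlinarith
  · refine (hR2 x).trans (prob_le_of_imp R F _ _ fun o ho => ?_)
    unfold Right at ho ⊢
    rw [hF3 o x hx1 (lt_of_lt_of_le hx2 (Nat.add_le_add_left (hW k n) m))]
    exact ho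

theorem all_of_on {s : ℕ → ℕ} {t W : ℕ → ℕ → ℕ} (hW : ∀ k n, 1 ≤ W k n)
    (h : CliqueOn s t W) : CliqueAll s := by
  obtain ⟨f, g, hg, h⟩ := h
  refine ⟨fun k => 2 ^ 21 * (f k + 1), fun k => 28 + |g k|, tendsto_g hg, ?_⟩
  intro k n hk hn
  have h' := h k n hk hn
  clear h
  obtain ⟨S, hS⟩ : ∃ S : ℕ, S = ⌊(f k : ℝ) * (n : ℝ) ^ g k⌋₊ := ⟨_, rfl⟩
  obtain ⟨N, hN⟩ : ∃ N : ℕ, N = n.choose 2 := ⟨_, rfl⟩
  choose R hR1 hR2 using h'
  have hSn : (0 : ℝ) ≤ (f k : ℝ) * (n : ℝ) ^ g k := by positivity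
  have hsz : ∀ m o, ((R m).C o).size ≤ S := fun m o => by
    rw [hS]
    exact Nat.le_floor (hR1 m o).2
  -- the circuits for the slices
  set Cf : (∀ i : Fin (N + 1), (R (i : ℕ)).Ω) → ℕ → Circuit (n.choose 2) := fun o a =>
    if ha : a < N + 1 then (R ((⟨a, ha⟩ : Fin (N + 1)) : ℕ)).C (o ⟨a, ha⟩)
    else (R ((0 : Fin (N + 1)) : ℕ)).C (o 0) with hCf
  have hCs : ∀ o a, (Cf o a).size ≤ S := by
    intro o a
    simp only [hCf]
    split_ifs with ha
    · exact hsz _ _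
    · exact hsz _ _
  choose F hF1 hF2 using fun o => mux_one (Cf o) (hCs o)
  refine ⟨prodR (fun i : Fin (N + 1) => R i) F, fun o => ?_, fun x => ?_⟩
  · refine size_bound hn (f k) (g k) S (F o).size ?_ ((hF1 o).trans (msz_le hn S))
    rw [hS]
    exact Nat.floor_le hSn
  · have hx : wt x < N + 1 := by
      rw [hN]
      exact Nat.lt_succ_of_le (wt_le x)
    have hx2 := hR2 (wt x) x le_rfl (by
      have := hW k n
      show wt x < wt x + W k n
      omega)
    refine hx2.trans ?_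
    refine prod_prob (fun i : Fin (N + 1) => R i) F ⟨wt x, hx⟩ _ _ fun o ho => ?_
    have h1 : Cf o (wt x) = (R ((⟨wt x, hx⟩ : Fin (N + 1)) : ℕ)).C (o ⟨wt x, hx⟩) := by
      simp only [hCf]
      rw [dif_pos hx]
    unfold Right at ho ⊢
    rw [hF2 o x, h1]
    exact ho

end Pool.Agent.W2helper86.KQ
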