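import Mathlib
import Pool.Agent.W953.NW.Graph
import Pool.Agent.H540R2.Lift.NegDefs

/-!
# Randomised circuits for the clique problem with a bounded number of NOT gates: definitions

Circuits (AND and OR gates of fan-in two, NOT gates) are `Pool.Agent.H540R2.Circuit`; `C.size` is
the number of gates and `C.nots` the number of NOT gates.
-/

set_option autoImplicit false

namespace Pool.Agent.W2helper86.KQ

open Pool.Agent.H540R2

/-- a numbering of the pairs of vertices -/
noncomputable def pairNo (n : ℕ) : {p : Fin n × Fin n // p.1 < p.2} ≃ Fin (n.choose 2) :=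
  Fintype.equivFinOfCardEq (Pool.Agent.W953.NW.card_pairs n)

/-- the graph whose edges are the pairs with true bits -/
def graph {n : ℕ} (x : Fin (n.choose 2) → Bool) : SimpleGraph (Fin n) :=
  SimpleGraph.fromRel (fun i j => ∃ h : i < j, x (pairNo n ⟨(i, j), h⟩) = true)

/-- the number of edges of the graph -/
def edges {n : ℕ} (x : Fin (n.choose 2) → Bool) : ℕ :=
  (Finset.univ.filter (fun e => x e = true)).card

/-- A randomised circuit with `N` input bits: a probability distribution on finitely many
circuits. -/
structure RandCircuit (N : ℕ) where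
  Ω : Type
  fin : Fintype Ω
  w : Ω → ℝ
  nonneg : ∀ o, 0 ≤ w o
  sum_one : ∑ o, w o = 1
  C : Ω → Circuit N

open Classical in
/-- the probability that the circuit has the property `P` -/
noncomputable def RandCircuit.prob {N : ℕ} (R : RandCircuit N) (P : Circuit N → Prop) : ℝ :=
  ∑ o ∈ (@Finset.univ R.Ω R.fin).filter (fun o => P (R.C o)), R.w o

/-- The circuit accepts the graph of `x` if it has a clique of `s` vertices, and it rejects it if
it has no clique of `k` vertices. (For `s = k` it decides whether there is a clique of `k`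
vertices.) -/
def Right {n : ℕ} (s k : ℕ) (x : Fin (n.choose 2) → Bool) (C : Circuit (n.choose 2)) : Prop :=
  (¬ (graph x).CliqueFree s → C.eval x = true) ∧ ((graph x).CliqueFree k → C.eval x = false)

/-- There are randomised circuits of size `f k * n ^ o(k)` which tell the graphs with a clique of
`s k` vertices from the graphs with no clique of `k` vertices, with error probability at most
`1 / 3`. -/
def CliqueAll (s : ℕ → ℕ) : Prop :=
  ∃ (f : ℕ → ℕ) (g : ℕ → ℝ), Filter.Tendsto (fun k : ℕ => g k / k) Filter.atTop (nhds 0) ∧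
    ∀ k n : ℕ, 1 ≤ k → 2 ≤ n → ∃ R : RandCircuit (n.choose 2),
      (∀ o, ((R.C o).size : ℝ) ≤ f k * (n : ℝ) ^ g k) ∧ ∀ x, 2 / 3 ≤ R.prob (Right (s k) k x)

/-- There are such circuits with at most `t k n` NOT gates if, for each `m`, the circuit has to be
right only for the graphs with at least `m` and less than `m + W k n` edges. -/
def CliqueOn (s : ℕ → ℕ) (t W : ℕ → ℕ → ℕ) : Prop :=
  ∃ (f : ℕ → ℕ) (g : ℕ → ℝ), Filter.Tendsto (fun k : ℕ => g k / k) Filter.atTop (nhds 0) ∧
    ∀ k n : ℕ, 1 ≤ k → 2 ≤ n → ∀ m : ℕ, ∃ R : RandCircuit (n.choose 2),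
      (∀ o, (R.C o).nots ≤ t k n ∧ ((R.C o).size : ℝ) ≤ f k * (n : ℝ) ^ g k) ∧
      ∀ x, m ≤ edges x → edges x < m + W k n → 2 / 3 ≤ R.prob (Right (s k) k x)

end Pool.Agent.W2helper86.KQ
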