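import Pool.Agent.W2helper86.KQ.Eqv

/-!
# The final statements
-/

set_option autoImplicit false

namespace Pool.Agent.W2helper86.KQ

open Filter Finset Pool.Agent.H540R2 Pool.Agent.W953.KC

theorem on_iff {s : ℕ → ℕ} {t W : ℕ → ℕ → ℕ} (h1 : ∀ k n, 1 ≤ W k n)
    (h2 : ∀ k n, 2 ≤ n → W k n ≤ 2 ^ t k n) : CliqueOn s t W ↔ CliqueAll s := by
  refine ⟨all_of_on h1, fun h => ?_⟩
  have h3 : CliqueOn s t (fun k n => min (W k n) (2 ^ t k n)) :=
    on_of_all (fun k n => min_le_right _ _) h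
  obtain ⟨f, g, hg, h3⟩ := h3
  refine ⟨f, g, hg, fun k n hk hn m => ?_⟩
  have h4 := h3 k n hk hn m
  simp only [min_eq_left (h2 k n hn)] at h4
  exact h4

lemma full_le (γ : ℝ) (hγ : 2 ≤ γ) (n : ℕ) (hn : 2 ≤ n) :
    n.choose 2 + 1 ≤ 2 ^ ⌊γ * Real.logb 2 n⌋₊ := by
  have hn2 : (2 : ℝ) ≤ n := by exact_mod_cast hn
  have hn0 : (0 : ℝ) < n := by linarith
  have hlog : 1 ≤ Real.logb 2 n := by
    rw [Real.le_logb_iff_rpow_le (by norm_num) hn0]
    simpa using hn2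
  have h1 : 2 * Real.logb 2 n - 1 < (⌊γ * Real.logb 2 n⌋₊ : ℝ) := by
    have h2 := Nat.lt_floor_add_one (γ * Real.logb 2 n)
    nlinarith
  have h3 : (2 : ℝ) ^ (2 * Real.logb 2 n - 1) < (2 : ℝ) ^ (⌊γ * Real.logb 2 n⌋₊ : ℝ) :=
    Real.rpow_lt_rpow_of_exponent_lt (by norm_num) h1
  have h4 : (2 : ℝ) ^ (2 * Real.logb 2 n - 1) = (n : ℝ) ^ 2 / 2 := by
    rw [Real.rpow_sub (by norm_num), mul_comm, Real.rpow_mul (by norm_num),
      Real.rpow_logb (by norm_num) (by norm_num) hn0, Real.rpow_one]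
    norm_num
  rw [h4, Real.rpow_natCast] at h3
  have h5 : 2 * n.choose 2 = n * (n - 1) := by
    rw [Nat.choose_two_right]
    exact Nat.mul_div_cancel' (Nat.even_mul_pred_self n).two_dvd
  have h6 : n ^ 2 < 2 * 2 ^ ⌊γ * Real.logb 2 n⌋₊ := by
    have : (n : ℝ) ^ 2 < 2 * 2 ^ ⌊γ * Real.logb 2 n⌋₊ := by linarith
    exact_mod_cast this
  obtain ⟨a, rfl⟩ : ∃ a, n = a + 2 := ⟨n - 2, by omega⟩
  have h7 : (a + 2) * (a + 2 - 1) = (a + 2) ^ 2 - (a + 2) := by
    rw [show a + 2 - 1 = a + 1 by omega]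
    have : (a + 2) ^ 2 = (a + 2) * (a + 1) + (a + 2) := by ring
    omega
  omega

theorem full_iff {s : ℕ → ℕ} (hs : ∀ k, k ≤ s k) (γ : ℝ) (hγ : 0 ≤ γ) :
    CliqueOn s (fun _ n => ⌊γ * Real.logb 2 n⌋₊) (fun _ n => n.choose 2 + 1) ↔
      2 ≤ γ ∧ CliqueAll s := by
  constructor
  · intro h
    refine ⟨?_, all_of_on (fun k n => by omega) h⟩
    by_contra hcon
    push Not at hcon
    obtain ⟨f, g, hg, h⟩ := h
    set ε : ℝ := (2 - γ) / 4 with hε
    have hε0 : 0 < ε := by rw [hε]; linarith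
    have hε1 : ε ≤ 1 / 2 := by rw [hε]; linarith
    set c : ℝ := (2 + γ) / 2 with hc
    have hc2 : 0 < 2 - c := by rw [hc]; linarith
    have hγc : (1 + ε) * γ ≤ c := by rw [hε, hc]; nlinarith
    obtain ⟨k, hk1, hk⟩ := (eventually_ge_atTop 1).and (windows_gap ε hε0 s hs f g hg) |>.exists
    obtain ⟨α, hα, hk⟩ := hk
    have e1 : ∀ᶠ n : ℕ in atTop, (4 : ℝ) ≤ (n : ℝ) ^ (2 - c) :=
      ((tendsto_rpow_atTop hc2).comp tendsto_natCast_atTop_atTop).eventually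
        (eventually_ge_atTop 4)
    have e2 : ∀ᶠ n : ℕ in atTop, (6 : ℝ) ≤ (n : ℝ) ^ α :=
      ((tendsto_rpow_atTop hα).comp tendsto_natCast_atTop_atTop).eventually
        (eventually_ge_atTop 6)
    obtain ⟨n, hn2, hn4, hn6, hn⟩ := ((eventually_ge_atTop 2).and (e1.and (e2.and hk))).exists
    have hn0 : (0 : ℝ) < n := by exact_mod_cast (by omega : 0 < n)
    have hn1 : (1 : ℝ) ≤ n := by exact_mod_cast (by omega : 1 ≤ n)
    obtain ⟨R, hR1, hR2⟩ := h k n hk1 hn2 0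
    have hW : (n : ℝ) ^ c ≤ ((n.choose 2 + 1 : ℕ) : ℝ) := by
      have h5 : 2 * n.choose 2 = n * (n - 1) := by
        rw [Nat.choose_two_right]
        exact Nat.mul_div_cancel' (Nat.even_mul_pred_self n).two_dvd
      have h5' : 2 * ((n.choose 2 : ℕ) : ℝ) = n * (n - 1) := by
        have h6 : ((2 * n.choose 2 : ℕ) : ℝ) = ((n * (n - 1) : ℕ) : ℝ) := by rw [h5]
        push_cast [Nat.cast_sub (show 1 ≤ n by omega)] at h6
        exact h6
      have h7 : (n : ℝ) ^ c * 4 ≤ (n : ℝ) ^ (2 : ℝ) := by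
        calc (n : ℝ) ^ c * 4 ≤ (n : ℝ) ^ c * (n : ℝ) ^ (2 - c) := by gcongr
          _ = (n : ℝ) ^ (2 : ℝ) := by
              rw [← Real.rpow_add hn0]
              congr 1
              ring
      rw [Real.rpow_two] at h7
      push_cast
      nlinarith [sq_nonneg ((n : ℝ) - 1)]
    obtain ⟨x, hx1, hx2, hx3⟩ := hn ⌊γ * Real.logb 2 n⌋₊ (n.choose 2 + 1) 0
      (le_trans (Real.rpow_le_rpow_of_exponent_le hn1 (by rw [hc]; linarith)) hW)
      (by exact_mod_cast choose_two_add_one hn2)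
      (by
        refine le_trans ?_ hW
        have hlog : 0 ≤ Real.logb 2 n := Real.logb_nonneg (by norm_num) hn1
        have h8 : (1 + ε) * (⌊γ * Real.logb 2 n⌋₊ : ℝ) ≤ c * Real.logb 2 n := by
          have h9 := Nat.floor_le (mul_nonneg hγ hlog)
          calc (1 + ε) * (⌊γ * Real.logb 2 n⌋₊ : ℝ) ≤ (1 + ε) * (γ * Real.logb 2 n) := by
                gcongr
            _ = ((1 + ε) * γ) * Real.logb 2 n := by ring
            _ ≤ c * Real.logb 2 n := by gcongr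
        calc (2 : ℝ) ^ ((1 + ε) * (⌊γ * Real.logb 2 n⌋₊ : ℝ)) ≤ (2 : ℝ) ^ (c * Real.logb 2 n) :=
              Real.rpow_le_rpow_of_exponent_le (by norm_num) h8
          _ = (n : ℝ) ^ c := by
              rw [mul_comm, Real.rpow_mul (by norm_num),
                Real.rpow_logb (by norm_num) (by norm_num) hn0])
      (by omega) R hR1
    have h10 := hR2 x hx1 hx2
    have h11 : (n : ℝ) ^ (-α) ≤ 1 / 6 := by
      rw [Real.rpow_neg hn0.le, ← one_div]
      exact one_div_le_one_div_of_le (by norm_num) hn6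
    linarith
  · rintro ⟨h2, h⟩
    exact (on_iff (fun k n => by omega) (fun k n hn => full_le γ h2 n hn)).mpr h

end Pool.Agent.W2helper86.KQ
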