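import Pool.Agent.W2helper86.KQ.Defs
import Pool.Agent.W953.KC.Rand
import Pool.Agent.H559R10.Gap

/-!
# The lower bound on windows of edge counts, with a gap
-/

set_option autoImplicit false

namespace Pool.Agent.W2helper86.KQ

open Filter Finset Pool.Agent Pool.Agent.W953.KC

lemma graph_eq {n : ℕ} (x : Fin (n.choose 2) → Bool) : graph x = gr (pairNo n) x := rfl

lemma edges_eq {n : ℕ} (x : Fin (n.choose 2) → Bool) : edges x = W953.NW.wt x := rfl

open Classical in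
theorem core_gap (k s : ℕ) (hk : 3 ≤ k) (hs : k ≤ s) (γ θ : ℝ) (hγ : 0 ≤ γ) (hθ : 0 < θ)
    (h : θ + γ / 2 < 1) :
    ∃ α : ℝ, 0 < α ∧ ∀ᶠ r : ℕ in atTop, ∀ n q m : ℕ, r + 2 * q ≤ n → m ≤ q ^ 2 →
      ∀ R : RandCircuit (n.choose 2), (∀ o, (2 : ℝ) ^ (R.C o).nots ≤ (r : ℝ) ^ γ) →
          (∀ o, ((R.C o).size : ℝ) < (r : ℝ) ^ (θ * k)) →
          ∃ x : Fin (n.choose 2) → Bool, m ≤ edges x ∧ edges x ≤ m + r ^ 2 ∧
            R.prob (Right s k x) < 1 / 2 + (r : ℝ) ^ (-α) := by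
  obtain ⟨α, hα, H⟩ := Pool.Agent.H559R10.gap_main hk hs hγ hθ h
  refine ⟨α, hα, ?_⟩
  filter_upwards [H] with r hr n q m hn hm R hC1 hC2
  obtain ⟨P, hPc, hP⟩ := exists_pad (n := n) (r := r) (q := q) (m := m) hn hm
  obtain ⟨Λ, hΛ1, hΛ2, z, -, hz⟩ := hr
  letI := R.fin
  obtain ⟨l, hl⟩ := H559R8.rand_of_dist' (1 / 2 + (r : ℝ) ^ (-α))
    (fun o l => H559R10.RightGap s k (z l)
      ((outOf (psub (pairNo n) P r) (R.C o)).eval (z l)
        ((build (psub (pairNo n) P r) (R.C o) (R.C o).size).vals (z l)))) R.w R.nonneg R.sum_one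
    (fun o => by
      have h1 := hz _ (build (psub (pairNo n) P r) (R.C o) (R.C o).size)
        (outOf (psub (pairNo n) P r) (R.C o)) (by
          rw [build_prod]
          push_cast
          exact hC1 o) (by
          rw [build_size]
          exact hC2 o)
      convert h1)
  obtain ⟨h1, h2⟩ := ones_le (pairNo n) P hP (z l)
  rw [hPc] at h1 h2
  refine ⟨sx (psub (pairNo n) P r) (z l), h1, h2, lt_of_le_of_lt (le_of_eq ?_) hl⟩
  unfold RandCircuit.prob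
  apply Finset.sum_congr ?_ (fun _ _ => rfl)
  apply Finset.filter_congr
  intro o _
  unfold Right H559R10.RightGap
  rw [outOf_eval, graph_eq, clique_iff (pairNo n) P hP (by omega) k hk (z l),
    clique_iff (pairNo n) P hP (by omega) s (hk.trans hs) (z l)]

open Classical in
/-- **The clique problem on windows of edge counts.** -/
theorem windows_gap (ε : ℝ) (hε : 0 < ε) (s : ℕ → ℕ) (hs : ∀ k, k ≤ s k) (f : ℕ → ℕ) (g : ℕ → ℝ)
    (hg : Tendsto (fun k : ℕ => g k / k) atTop (nhds 0)) :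
    ∀ᶠ k : ℕ in atTop, ∃ α : ℝ, 0 < α ∧ ∀ᶠ n : ℕ in atTop, ∀ t W m : ℕ,
      (n : ℝ) ^ ε ≤ W → W ≤ n ^ 2 → (2 : ℝ) ^ ((1 + ε) * t) ≤ W → 25 * m ≤ n ^ 2 →
      ∀ R : RandCircuit (n.choose 2),
          (∀ o, (R.C o).nots ≤ t ∧ ((R.C o).size : ℝ) ≤ f k * (n : ℝ) ^ g k) →
          ∃ x : Fin (n.choose 2) → Bool, m ≤ edges x ∧ edges x < m + W ∧
            R.prob (Right (s k) k x) < 1 / 2 + (n : ℝ) ^ (-α) := by
  set δ : ℝ := ε / (1 + ε) with hδ
  have hε1 : 0 < 1 + ε := by linarith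
  have hδ0 : 0 < δ := div_pos hε hε1
  have hδ1 : δ < 1 := by
    rw [hδ, div_lt_one hε1]
    linarith
  have hδε : δ * (1 + ε) = ε := by
    rw [hδ]
    field_simp
  set θ : ℝ := δ / 4 with hθ
  have hθ0 : 0 < θ := by positivity
  have hsm : ∀ᶠ k : ℕ in atTop, g k / k < ε * θ / 8 :=
    hg.eventually (gt_mem_nhds (by positivity))
  have hlg : ∀ᶠ k : ℕ in atTop, 8 / (ε * θ) ≤ (k : ℝ) :=
    tendsto_natCast_atTop_atTop.eventually (eventually_ge_atTop _)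
  filter_upwards [hsm, hlg, eventually_ge_atTop 3] with k hk1 hk2 hk3
  obtain ⟨α', hα', H⟩ := core_gap k (s k) hk3 (hs k) (2 - δ) θ (by linarith) hθ0
    (by rw [hθ]; linarith)
  have hk0 : (0 : ℝ) < k := by
    have : (3 : ℝ) ≤ k := by exact_mod_cast hk3
    linarith
  have hgk : g k + 1 ≤ ε * θ * k / 4 := by
    have h1 : g k < ε * θ / 8 * k := by
      rwa [div_lt_iff₀ hk0] at hk1
    have h2 : 1 ≤ ε * θ / 8 * k := by
      rw [div_le_iff₀ (by positivity)] at hk2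
      linarith
    linarith
  have H2 : ∀ᶠ r : ℕ in atTop, (9 : ℝ) ≤ (r : ℝ) ^ ε := ev_rpow hε 9
  obtain ⟨N₀, hN₀⟩ := eventually_atTop.1 (H.and H2)
  refine ⟨α' * ε / 4, by positivity, ?_⟩
  filter_upwards [ev_rpow (s := ε / 4) (by positivity) ((N₀ : ℝ) + 3), eventually_gt_atTop (f k),
    eventually_ge_atTop 20] with n hn1 hn2 hn3 t W m hW1 hW2 ht hm R hC
  have hC1 : ∀ o, (R.C o).nots ≤ t := fun o => (hC o).1
  have hC2 : ∀ o, ((R.C o).size : ℝ) ≤ f k * (n : ℝ) ^ g k := fun o => (hC o).2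
  have hn0 : (0 : ℝ) < n := by
    have : (20 : ℝ) ≤ n := by exact_mod_cast hn3
    linarith
  set y : ℝ := (n : ℝ) ^ (ε / 4) with hy
  have hy3 : 3 ≤ y := by
    have : (0 : ℝ) ≤ N₀ := Nat.cast_nonneg _
    linarith
  have hy4 : y ^ 4 = (n : ℝ) ^ ε := by
    rw [hy, ← Real.rpow_natCast, ← Real.rpow_mul hn0.le]
    congr 1
    push_cast
    ring
  set r : ℕ := Nat.sqrt W / 2 with hr
  have hs1 : Nat.sqrt W * Nat.sqrt W ≤ W := Nat.sqrt_le W
  have hs2 : W < (Nat.sqrt W + 1) * (Nat.sqrt W + 1) := Nat.lt_succ_sqrt W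
  have hr1 : 2 * r ≤ Nat.sqrt W := by omega
  have hr2 : Nat.sqrt W + 1 ≤ 2 * r + 2 := by omega
  -- `r` is large
  have hyr : y ≤ r := by
    have h1 : y ^ 4 ≤ (W : ℝ) := by rw [hy4]; exact hW1
    have h2 : (W : ℝ) ≤ ((2 * r + 2 : ℕ) : ℝ) * ((2 * r + 2 : ℕ) : ℝ) := by
      exact_mod_cast hs2.le.trans (Nat.mul_le_mul hr2 hr2)
    have h3 : y ^ 2 ≤ 2 * r + 2 := by
      by_contra hcon
      push Not at hcon
      have h4 : (2 * (r : ℝ) + 2) * (2 * r + 2) < y ^ 2 * y ^ 2 :=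
        mul_self_lt_mul_self (by positivity) hcon
      have h5 : y ^ 4 = y ^ 2 * y ^ 2 := by ring
      push_cast at h2
      linarith
    nlinarith
  have hr3 : (3 : ℝ) ≤ r := hy3.trans hyr
  have hr3' : 3 ≤ r := by exact_mod_cast hr3
  have hrN : N₀ ≤ r := by
    have : (N₀ : ℝ) ≤ r := by linarith
    exact_mod_cast this
  obtain ⟨HR, H9⟩ := hN₀ r hrN
  have hr0 : (0 : ℝ) < r := by linarith
  have hW9 : (W : ℝ) ≤ 9 * (r : ℝ) ^ (2 : ℝ) := by
    have h1 : W ≤ 9 * r ^ 2 := by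
      have h2 := hs2.le.trans (Nat.mul_le_mul hr2 hr2)
      nlinarith
    have h3 : (W : ℝ) ≤ 9 * (r : ℝ) ^ 2 := by exact_mod_cast h1
    rwa [← Real.rpow_natCast, Nat.cast_ofNat] at h3
  have hsn : Nat.sqrt W ≤ n := by
    by_contra hcon
    push Not at hcon
    have := Nat.mul_lt_mul'' hcon hcon
    nlinarith
  -- few NOT gates
  have hnots : ∀ o, (2 : ℝ) ^ (R.C o).nots ≤ (r : ℝ) ^ (2 - δ) := by
    intro o
    have h1 : (2 : ℝ) ^ (R.C o).nots ≤ (2 : ℝ) ^ t := pow_le_pow_right₀ (by norm_num) (hC1 o)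
    refine h1.trans ?_
    rw [← Real.rpow_le_rpow_iff (by positivity) (by positivity) hε1]
    rw [← Real.rpow_natCast 2 t, ← Real.rpow_mul (by norm_num), ← Real.rpow_mul hr0.le]
    have e1 : (2 - δ) * (1 + ε) = 2 + ε := by
      rw [sub_mul, hδε]
      ring
    rw [e1, mul_comm (t : ℝ), Real.rpow_add hr0]
    calc (2 : ℝ) ^ ((1 + ε) * t) ≤ W := ht
      _ ≤ 9 * (r : ℝ) ^ (2 : ℝ) := hW9
      _ = (r : ℝ) ^ (2 : ℝ) * 9 := by ring
      _ ≤ (r : ℝ) ^ (2 : ℝ) * (r : ℝ) ^ ε := by gcongr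
  -- the size
  have hsize : ∀ o, ((R.C o).size : ℝ) < (r : ℝ) ^ (θ * k) := by
    intro o
    have h1 : ((f k : ℕ) : ℝ) < n := by exact_mod_cast hn2
    calc ((R.C o).size : ℝ) ≤ f k * (n : ℝ) ^ g k := hC2 o
      _ < n * (n : ℝ) ^ g k := by
          have : 0 < (n : ℝ) ^ g k := Real.rpow_pos_of_pos hn0 _
          gcongr
      _ = (n : ℝ) ^ (g k + 1) := by
          rw [Real.rpow_add_one hn0.ne']
          ring
      _ ≤ (n : ℝ) ^ (ε * θ * k / 4) := by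
          apply Real.rpow_le_rpow_of_exponent_le _ hgk
          have : (20 : ℝ) ≤ n := by exact_mod_cast hn3
          linarith
      _ = y ^ (θ * k) := by
          rw [hy, ← Real.rpow_mul hn0.le]
          congr 1
          ring
      _ ≤ (r : ℝ) ^ (θ * k) := Real.rpow_le_rpow (by linarith) hyr (by positivity)
  have hm' : m ≤ (n / 4) ^ 2 := by
    have h1 : n ≤ 5 * (n / 4) := by omega
    have h2 : n ^ 2 ≤ 25 * (n / 4) ^ 2 := by
      calc n ^ 2 ≤ (5 * (n / 4)) ^ 2 := Nat.pow_le_pow_left h1 2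
        _ = 25 * (n / 4) ^ 2 := by ring
    omega
  obtain ⟨x, hx1, hx2, hx3⟩ := HR n (n / 4) m (by omega) hm' R hnots hsize
  refine ⟨x, hx1, ?_, lt_of_lt_of_le hx3 ?_⟩
  · have h1 : r ^ 2 < W := by
      have h2 : (2 * r) * (2 * r) ≤ W := (Nat.mul_le_mul hr1 hr1).trans hs1
      nlinarith
    omega
  · have h1 : (r : ℝ) ^ (-α') ≤ y ^ (-α') :=
      Real.rpow_le_rpow_of_nonpos (by linarith) hyr (by linarith)
    have h2 : y ^ (-α') = (n : ℝ) ^ (-(α' * ε / 4)) := by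
      rw [hy, ← Real.rpow_mul hn0.le]
      congr 1
      ring
    rw [h2] at h1
    linarith

end Pool.Agent.W2helper86.KQ
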